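import Pool.Agent.MT100B.Stmts

/-! MT100B, module EXM: the exterior square of matrices -/

set_option autoImplicit false

namespace Pool.Agent.MT100B.H24

open Matrix Pool.Agent.MT100 Pool.Agent.MT100B

/-- a sum over all pairs with vanishing diagonal is a sum over the ordered pairs -/
theorem sum_pairs {r : ℕ} {R : Type} [CommRing R] (h : Fin r → Fin r → R) (h0 : ∀ i, h i i = 0) :
    ∑ i, ∑ j, h i j = ∑ α : AI r, (h α.1.1 α.1.2 + h α.1.2 α.1.1) := by
  classical
  have e1 : ∑ α : AI r, (h α.1.1 α.1.2 + h α.1.2 α.1.1) =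
      ∑ p ∈ (Finset.univ : Finset (Fin r × Fin r)).filter (fun p => p.1 < p.2),
        (h p.1 p.2 + h p.2 p.1) := by
    rw [Finset.sum_subtype (p := fun p : Fin r × Fin r => p.1 < p.2)]
    intro p
    simp
  have e2 : ∑ p ∈ (Finset.univ : Finset (Fin r × Fin r)).filter (fun p => p.1 < p.2),
      h p.2 p.1 = ∑ p ∈ (Finset.univ : Finset (Fin r × Fin r)).filter (fun p => p.2 < p.1),
        h p.1 p.2 := by
    refine Finset.sum_nbij' (fun p => (p.2, p.1)) (fun p => (p.2, p.1)) ?_ ?_ ?_ ?_ ?_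
    · intro p hp
      simpa using hp
    · intro p hp
      simpa using hp
    · intro p _
      rfl
    · intro p _
      rfl
    · intro p _
      rfl
  rw [e1, Finset.sum_add_distrib, e2, ← Fintype.sum_prod_type' (f := h)]
  rw [← Finset.sum_filter_add_sum_filter_not Finset.univ (fun p : Fin r × Fin r => p.1 < p.2)]
  congr 1
  rw [← Finset.sum_filter_add_sum_filter_not
    (Finset.univ.filter (fun p : Fin r × Fin r => ¬ p.1 < p.2)) (fun p : Fin r × Fin r => p.2 < p.1)]
  have e3 : ∑ p ∈ (Finset.univ.filter (fun p : Fin r × Fin r => ¬ p.1 < p.2)).filter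
      (fun p : Fin r × Fin r => ¬ p.2 < p.1), h p.1 p.2 = 0 := by
    apply Finset.sum_eq_zero
    intro p hp
    simp only [Finset.mem_filter, Finset.mem_univ, true_and, not_lt] at hp
    have : p.1 = p.2 := le_antisymm hp.2 hp.1
    rw [this, h0]
  rw [e3, add_zero]
  apply Finset.sum_congr _ (fun _ _ => rfl)
  ext p
  simp only [Finset.mem_filter, Finset.mem_univ, true_and]
  constructor
  · rintro ⟨_, h2⟩
    exact h2
  · intro h2
    exact ⟨not_lt.2 h2.le, h2⟩

/-- the Cauchy-Binet formula of size two -/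
theorem cb {r : ℕ} {R : Type} [CommRing R] (x y F G : Fin r → R) :
    (∑ i, x i * F i) * (∑ j, y j * G j) - (∑ i, x i * G i) * (∑ j, y j * F j) =
      ∑ α : AI r, (x α.1.1 * y α.1.2 - x α.1.2 * y α.1.1) *
        (F α.1.1 * G α.1.2 - F α.1.2 * G α.1.1) := by
  have h := sum_pairs (fun i j => x i * y j * (F i * G j - G i * F j))
    (fun i => by ring)
  have h1 : (∑ i, x i * F i) * (∑ j, y j * G j) - (∑ i, x i * G i) * (∑ j, y j * F j) =
      ∑ i, ∑ j, x i * y j * (F i * G j - G i * F j) := by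
    rw [Finset.sum_mul_sum, Finset.sum_mul_sum, ← Finset.sum_sub_distrib]
    apply Finset.sum_congr rfl
    intro i _
    rw [← Finset.sum_sub_distrib]
    apply Finset.sum_congr rfl
    intro j _
    ring
  rw [h1, h]
  apply Finset.sum_congr rfl
  intro α _
  ring

theorem exm : ExmStmt := by
  refine ⟨?_, ?_, ?_, ?_⟩
  · intro r R _ M M'
    ext β α
    have h := cb (M β.1.1) (M β.1.2) (fun i => M' i α.1.1) (fun i => M' i α.1.2)
    rw [Matrix.mul_apply]
    show (M * M') β.1.1 α.1.1 * (M * M') β.1.2 α.1.2 -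
      (M * M') β.1.1 α.1.2 * (M * M') β.1.2 α.1.1 = _
    rw [Matrix.mul_apply, Matrix.mul_apply, Matrix.mul_apply, Matrix.mul_apply, h]
    apply Finset.sum_congr rfl
    intro γ _
    show _ = (M β.1.1 γ.1.1 * M β.1.2 γ.1.2 - M β.1.1 γ.1.2 * M β.1.2 γ.1.1) *
      (M' γ.1.1 α.1.1 * M' γ.1.2 α.1.2 - M' γ.1.1 α.1.2 * M' γ.1.2 α.1.1)
    ring
  · intro r R _
    ext β α
    show (1 : Matrix (Fin r) (Fin r) R) β.1.1 α.1.1 * (1 : Matrix (Fin r) (Fin r) R) β.1.2 α.1.2 -
      (1 : Matrix (Fin r) (Fin r) R) β.1.1 α.1.2 * (1 : Matrix (Fin r) (Fin r) R) β.1.2 α.1.1 = _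
    have hb := β.2
    have ha := α.2
    have h2 : (1 : Matrix (Fin r) (Fin r) R) β.1.1 α.1.2 *
        (1 : Matrix (Fin r) (Fin r) R) β.1.2 α.1.1 = 0 := by
      by_cases h : β.1.1 = α.1.2
      · by_cases h' : β.1.2 = α.1.1
        · exfalso
          rw [h, h'] at hb
          exact absurd (hb.trans ha) (lt_irrefl _)
        · rw [Matrix.one_apply_ne h', mul_zero]
      · rw [Matrix.one_apply_ne h, zero_mul]
    rw [h2, sub_zero]
    by_cases h : β = α
    · subst h
      rw [Matrix.one_apply_eq, Matrix.one_apply_eq, Matrix.one_apply_eq, one_mul]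
    · rw [Matrix.one_apply_ne h]
      by_cases h3 : β.1.1 = α.1.1
      · have h4 : β.1.2 ≠ α.1.2 := by
          intro h5
          exact h (Subtype.ext (Prod.ext h3 h5))
        rw [Matrix.one_apply_ne h4, mul_zero]
      · rw [Matrix.one_apply_ne h3, zero_mul]
  · intro r R R' _ _ f M
    ext β α
    show f (M β.1.1 α.1.1) * f (M β.1.2 α.1.2) - f (M β.1.1 α.1.2) * f (M β.1.2 α.1.1) =
      f (M β.1.1 α.1.1 * M β.1.2 α.1.2 - M β.1.1 α.1.2 * M β.1.2 α.1.1)
    rw [map_sub, map_mul, map_mul]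
  · intro r R _ M F G β
    have h := cb (M β.1.1) (M β.1.2) F G
    show (∑ i, M β.1.1 i * F i) * (∑ i, M β.1.2 i * G i) -
      (∑ i, M β.1.2 i * F i) * (∑ i, M β.1.1 i * G i) = _
    rw [mul_comm (∑ i, M β.1.2 i * F i), h]
    rfl

end Pool.Agent.MT100B.H24
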